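import Mathlib

/-!
# The shuffle product of multiple polylogarithms as formal power series
(the formal power series argument is that of TH981/AMZ/CPow, here over the reals)
-/

set_option autoImplicit false

namespace Pool.Agent.TH507.DS

open Finset PowerSeries

noncomputable section

/-- formal `∫ F dz / z` -/
def In (F : PowerSeries ℝ) : PowerSeries ℝ := PowerSeries.mk fun n => PowerSeries.coeff n F / (n : ℝ)

theorem coeff_In (F : PowerSeries ℝ) (n : ℕ) :
    PowerSeries.coeff n (In F) = PowerSeries.coeff n F / (n : ℝ) := by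
  simp [In]

theorem In_add (F G : PowerSeries ℝ) : In (F + G) = In F + In G := by
  ext n
  simp [coeff_In, add_div]

theorem In_zero : In 0 = 0 := by
  ext n
  simp [coeff_In]

theorem In_mul {F G : PowerSeries ℝ} (hF : PowerSeries.coeff 0 F = 0)
    (hG : PowerSeries.coeff 0 G = 0) :
    In F * In G = In (F * In G + In F * G) := by
  ext n
  rw [coeff_In, map_add, PowerSeries.coeff_mul, PowerSeries.coeff_mul, PowerSeries.coeff_mul,
    ← sum_add_distrib]
  rcases Nat.eq_zero_or_pos n with rfl | hn
  · simp [coeff_In]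
  · rw [eq_div_iff (by exact_mod_cast hn.ne'), sum_mul]
    apply sum_congr rfl
    rintro ⟨i, j⟩ hij
    rw [Finset.HasAntidiagonal.mem_antidiagonal] at hij
    simp only [coeff_In]
    simp only at hij
    rw [← hij]
    rcases Nat.eq_zero_or_pos i with rfl | hi
    · simp [hF]
    · rcases Nat.eq_zero_or_pos j with rfl | hj
      · simp [hG]
      · have hi' : (i : ℝ) ≠ 0 := by exact_mod_cast hi.ne'
        have hj' : (j : ℝ) ≠ 0 := by exact_mod_cast hj.ne'
        push_cast
        field_simp

/-- the two forms: `1` and `z / (1 - z)` -/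
def yv (a : Bool) : PowerSeries ℝ :=
  if a then PowerSeries.mk (fun n => if n = 0 then 0 else 1) else 1

/-- one step of the iterated integral -/
def Jn (a : Bool) (F : PowerSeries ℝ) : PowerSeries ℝ := In (yv a * F)

theorem Jn_add (a : Bool) (F G : PowerSeries ℝ) : Jn a (F + G) = Jn a F + Jn a G := by
  rw [Jn, Jn, Jn, mul_add, In_add]

theorem Jn_zero (a : Bool) : Jn a 0 = 0 := by rw [Jn, mul_zero, In_zero]

theorem Jn_list (a : Bool) (L : List (PowerSeries ℝ)) : Jn a L.sum = (L.map (Jn a)).sum := by
  induction L with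
  | nil => simp [Jn_zero]
  | cons F L ih => rw [List.sum_cons, Jn_add, ih, List.map_cons, List.sum_cons]

/-- the multiple polylogarithm of a binary word -/
def Lb : List Bool → PowerSeries ℝ
  | [] => 1
  | a :: u => Jn a (Lb u)

theorem Lb_nil : Lb [] = 1 := by rw [Lb]
theorem Lb_cons (a : Bool) (u : List Bool) : Lb (a :: u) = Jn a (Lb u) := by rw [Lb]

/-- words whose last letter is `true` -/
def Vd : List Bool → Prop
  | [] => True
  | a :: u => (u = [] → a = true) ∧ Vd u

theorem coeff_zero_Lb {u : List Bool} (hu : u ≠ []) : PowerSeries.coeff 0 (Lb u) = 0 := by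
  cases u with
  | nil => exact absurd rfl hu
  | cons a u => simp [Lb, Jn, coeff_In]

theorem coeff_zero_form {a : Bool} {u : List Bool} (h : Vd (a :: u)) :
    PowerSeries.coeff 0 (yv a * Lb u) = 0 := by
  rw [PowerSeries.coeff_mul, Finset.HasAntidiagonal.antidiagonal_zero, sum_singleton]
  cases a with
  | true => simp [yv]
  | false =>
    have : u ≠ [] := by
      intro h0
      have := h.1 h0
      simp at this
    rw [coeff_zero_Lb this, mul_zero]

theorem Lb_mul_cons {a b : Bool} {u v : List Bool} (hu : Vd (a :: u)) (hv : Vd (b :: v)) :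
    Lb (a :: u) * Lb (b :: v) = Jn a (Lb u * Lb (b :: v)) + Jn b (Lb (a :: u) * Lb v) := by
  have h := In_mul (coeff_zero_form hu) (coeff_zero_form hv)
  have e1 : Lb (a :: u) = In (yv a * Lb u) := rfl
  have e2 : Lb (b :: v) = In (yv b * Lb v) := rfl
  rw [Jn, Jn, ← In_add, e1, e2, h]
  congr 1
  ring

/-- the list of the shuffles of two words -/
def sh : List Bool → List Bool → List (List Bool)
  | [], v => [v]
  | a :: u, [] => [a :: u]
  | a :: u, b :: v => (sh u (b :: v)).map (a :: ·) ++ (sh (a :: u) v).map (b :: ·)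
termination_by u v => u.length + v.length

theorem Lb_mul (u v : List Bool) : Vd u → Vd v → Lb u * Lb v = ((sh u v).map Lb).sum := by
  induction u, v using sh.induct with
  | case1 v =>
    intro _ _
    rw [sh, Lb_nil, one_mul]
    simp
  | case2 a u =>
    intro _ _
    rw [sh, Lb_nil, mul_one]
    simp
  | case3 a u b v ih1 ih2 =>
    intro hu hv
    rw [sh, Lb_mul_cons hu hv, ih1 hu.2 hv, ih2 hu hv.2, Jn_list, Jn_list, List.map_append,
      List.sum_append, List.map_map, List.map_map, List.map_map, List.map_map]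
    rfl

theorem sh_ne (u v : List Bool) : ∀ w ∈ sh u v, w = [] → u = [] ∧ v = [] := by
  induction u, v using sh.induct with
  | case1 v =>
    intro w hw h
    rw [sh, List.mem_singleton] at hw
    exact ⟨rfl, hw ▸ h⟩
  | case2 a u =>
    intro w hw h
    rw [sh, List.mem_singleton] at hw
    rw [hw] at h
    exact absurd h (List.cons_ne_nil _ _)
  | case3 a u b v _ _ =>
    intro w hw h
    rw [sh, List.mem_append, List.mem_map, List.mem_map] at hw
    rcases hw with ⟨w', -, rfl⟩ | ⟨w', -, rfl⟩ <;> exact absurd h (List.cons_ne_nil _ _)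

theorem sh_Vd (u v : List Bool) : Vd u → Vd v → ∀ w ∈ sh u v, Vd w := by
  induction u, v using sh.induct with
  | case1 v =>
    intro _ hv w hw
    rw [sh, List.mem_singleton] at hw
    exact hw ▸ hv
  | case2 a u =>
    intro hu _ w hw
    rw [sh, List.mem_singleton] at hw
    exact hw ▸ hu
  | case3 a u b v ih1 ih2 =>
    intro hu hv w hw
    rw [sh, List.mem_append, List.mem_map, List.mem_map] at hw
    rcases hw with ⟨w', hw', rfl⟩ | ⟨w', hw', rfl⟩
    · exact ⟨fun h => absurd (sh_ne _ _ w' hw' h).2 (List.cons_ne_nil _ _), ih1 hu.2 hv w' hw'⟩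
    · exact ⟨fun h => absurd (sh_ne _ _ w' hw' h).1 (List.cons_ne_nil _ _), ih2 hu hv.2 w' hw'⟩

theorem coeff_nonneg (u : List Bool) : ∀ n, 0 ≤ PowerSeries.coeff n (Lb u) := by
  induction u with
  | nil =>
    intro n
    rw [Lb_nil, PowerSeries.coeff_one]
    split_ifs <;> norm_num
  | cons a u ih =>
    intro n
    rw [Lb_cons, Jn, coeff_In, PowerSeries.coeff_mul]
    refine div_nonneg (sum_nonneg fun p _ => mul_nonneg ?_ (ih _)) (Nat.cast_nonneg _)
    cases a with
    | true =>
      simp only [yv, if_true, PowerSeries.coeff_mk]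
      split_ifs <;> norm_num
    | false =>
      simp only [yv, Bool.false_eq_true, if_false, PowerSeries.coeff_one]
      split_ifs <;> norm_num

/-- the value at `1` -/
def Zb (u : List Bool) : ℝ := ∑' n, PowerSeries.coeff n (Lb u)

/-- sums of lists of nonnegative functions -/
theorem list_tsum {α : Type*} (L : List α) (F : α → ℕ → ℝ) (h0 : ∀ a ∈ L, ∀ n, 0 ≤ F a n)
    (hs : Summable fun n => (L.map fun a => F a n).sum) :
    (∀ a ∈ L, Summable (F a)) ∧
      ∑' n, (L.map fun a => F a n).sum = (L.map fun a => ∑' n, F a n).sum := by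
  induction L with
  | nil => simp
  | cons a L ih =>
    simp only [List.map_cons, List.sum_cons] at hs ⊢
    have hL0 : ∀ n, 0 ≤ (L.map fun a => F a n).sum := fun n =>
      List.sum_nonneg fun x hx => by
        obtain ⟨b, hb, rfl⟩ := List.mem_map.1 hx
        exact h0 b (List.mem_cons_of_mem _ hb) n
    have ha0 := h0 a List.mem_cons_self
    have h1 : Summable (F a) := Summable.of_nonneg_of_le ha0 (fun n =>
      le_add_of_nonneg_right (hL0 n)) hs
    have h2 : Summable fun n => (L.map fun a => F a n).sum := Summable.of_nonneg_of_le hL0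
      (fun n => le_add_of_nonneg_left (ha0 n)) hs
    obtain ⟨h3, h4⟩ := ih (fun b hb => h0 b (List.mem_cons_of_mem _ hb)) h2
    refine ⟨fun b hb => ?_, ?_⟩
    · rcases List.mem_cons.1 hb with rfl | hb
      · exact h1
      · exact h3 b hb
    · rw [h1.tsum_add h2, h4]

theorem cauchy {f g : ℕ → ℝ} (hf : ∀ n, 0 ≤ f n) (hg : ∀ n, 0 ≤ g n) (sf : Summable f)
    (sg : Summable g) : (Summable fun n => ∑ p ∈ antidiagonal n, f p.1 * g p.2) ∧
      (∑' n, f n) * ∑' n, g n = ∑' n, ∑ p ∈ antidiagonal n, f p.1 * g p.2 := by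
  have h1 : Summable fun x : ℕ × ℕ => f x.1 * g x.2 := sf.mul_of_nonneg sg hf hg
  exact ⟨summable_sum_mul_antidiagonal_of_summable_mul h1,
    sf.tsum_mul_tsum_eq_tsum_sum_antidiagonal sg h1⟩

theorem coeff_list (L : List (PowerSeries ℝ)) (n : ℕ) :
    PowerSeries.coeff n L.sum = (L.map fun F => PowerSeries.coeff n F).sum := by
  induction L with
  | nil => simp
  | cons F L ih => rw [List.sum_cons, map_add, ih, List.map_cons, List.sum_cons]

theorem coeff_sh {u v : List Bool} (hu : Vd u) (hv : Vd v) (n : ℕ) :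
    ∑ p ∈ antidiagonal n, PowerSeries.coeff p.1 (Lb u) * PowerSeries.coeff p.2 (Lb v) =
      ((sh u v).map fun w => PowerSeries.coeff n (Lb w)).sum := by
  rw [← PowerSeries.coeff_mul, Lb_mul u v hu hv, coeff_list, List.map_map]
  rfl

/-- **the shuffle product** -/
theorem Zb_mul {u v : List Bool} (hu : Vd u) (hv : Vd v)
    (su : Summable fun n => PowerSeries.coeff n (Lb u))
    (sv : Summable fun n => PowerSeries.coeff n (Lb v)) :
    Zb u * Zb v = ((sh u v).map Zb).sum := by
  obtain ⟨h1, h2⟩ := cauchy (coeff_nonneg u) (coeff_nonneg v) su sv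
  have h1' : Summable fun n => ((sh u v).map fun w => PowerSeries.coeff n (Lb w)).sum :=
    h1.congr fun n => coeff_sh hu hv n
  have h2' : Zb u * Zb v = ∑' n, ((sh u v).map fun w => PowerSeries.coeff n (Lb w)).sum :=
    h2.trans (tsum_congr fun n => coeff_sh hu hv n)
  rw [h2']
  exact (list_tsum (sh u v) (fun w n => PowerSeries.coeff n (Lb w))
    (fun w _ => coeff_nonneg w) h1').2

end

end Pool.Agent.TH507.DS
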