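import Mathlib
import Pool.Agent.TH507.DS.A
import Pool.Agent.TH507.WG.G

/-!
# Binary words, indices, multiple zeta values
-/

set_option autoImplicit false

namespace Pool.Agent.TH507.DS

open Finset PowerSeries
open Pool.Agent.TH507.ZS (Z2)
open Pool.Agent.TH507.WD (hr hr_nil hr_cons hr_nonneg mz hr_range)
open Pool.Agent.TH507.WG (hr_bd)

/-- the word `y_{k_1} ... y_{k_t}`, `y_k = x ^ (k - 1) y`, `x = false`, `y = true` -/
def word : List ℕ → List Bool
  | [] => []
  | k :: l => List.replicate (k - 1) false ++ true :: word l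

/-- reading a word -/
def decA : ℕ → List Bool → List ℕ
  | _, [] => []
  | c, true :: u => (c + 1) :: decA 0 u
  | c, false :: u => decA (c + 1) u

lemma word_nil : word [] = [] := rfl
lemma word_cons (k : ℕ) (l : List ℕ) :
    word (k :: l) = List.replicate (k - 1) false ++ true :: word l := rfl

lemma Vd_rep (m : ℕ) (w : List Bool) (hw : Vd w) : Vd (List.replicate m false ++ true :: w) := by
  induction m with
  | zero => exact ⟨fun _ => rfl, hw⟩
  | succ m ih =>
    rw [List.replicate_succ, List.cons_append]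
    exact ⟨fun h => by simp at h, ih⟩

lemma Vd_word (l : List ℕ) : Vd (word l) := by
  induction l with
  | nil => trivial
  | cons k l ih => exact Vd_rep _ _ ih

lemma word_decA (u : List Bool) : ∀ c, Vd u → (u ≠ [] ∨ c = 0) →
    word (decA c u) = List.replicate c false ++ u := by
  induction u with
  | nil =>
    intro c _ h
    rcases h with h | rfl
    · exact absurd rfl h
    · rfl
  | cons a u ih =>
    intro c hu _
    cases a with
    | true =>
      rw [decA, word_cons, Nat.add_sub_cancel, ih 0 hu.2 (Or.inr rfl)]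
      rfl
    | false =>
      have hne : u ≠ [] := fun h => by simpa using hu.1 h
      rw [decA, ih (c + 1) hu.2 (Or.inl hne), List.replicate_succ']
      simp

lemma decA_pos (u : List Bool) : ∀ c, ∀ s ∈ decA c u, 1 ≤ s := by
  induction u with
  | nil => intro c s hs; exact absurd hs List.not_mem_nil
  | cons a u ih =>
    intro c s hs
    cases a with
    | true =>
      rw [decA] at hs
      rcases List.mem_cons.1 hs with rfl | hs
      · exact Nat.le_add_left _ _
      · exact ih 0 s hs
    | false =>
      rw [decA] at hs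
      exact ih (c + 1) s hs

lemma coeff_yv (G : PowerSeries ℝ) (n : ℕ) :
    PowerSeries.coeff n (yv true * G) = ∑ j ∈ range n, PowerSeries.coeff j G := by
  rw [mul_comm, PowerSeries.coeff_mul, Finset.Nat.sum_antidiagonal_eq_sum_range_succ
    (fun i j => PowerSeries.coeff i G * PowerSeries.coeff j (yv true)), sum_range_succ]
  have h1 : PowerSeries.coeff (n - n) (yv true) = 0 := by simp [yv]
  rw [h1, mul_zero, add_zero]
  refine sum_congr rfl fun j hj => ?_
  rw [mem_range] at hj
  have h2 : PowerSeries.coeff (n - j) (yv true) = 1 := by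
    simp only [yv, if_true, PowerSeries.coeff_mk]
    rw [if_neg (by omega)]
  rw [h2, mul_one]

lemma coeff_rep (m : ℕ) (w : List Bool) (n : ℕ) :
    PowerSeries.coeff n (Lb (List.replicate m false ++ true :: w)) =
      (∑ j ∈ range n, PowerSeries.coeff j (Lb w)) / (n : ℝ) ^ (m + 1) := by
  induction m with
  | zero =>
    rw [List.replicate_zero, List.nil_append, Lb_cons, Jn, coeff_In, coeff_yv, zero_add, pow_one]
  | succ m ih =>
    rw [List.replicate_succ, List.cons_append, Lb_cons, Jn, coeff_In]
    have h1 : yv false = 1 := by simp [yv]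
    rw [h1, one_mul, ih, div_div, ← pow_succ]

lemma sum_word (l : List ℕ) (hl : ∀ s ∈ l, 1 ≤ s) (n : ℕ) (hn : 1 ≤ n) :
    ∑ j ∈ range n, PowerSeries.coeff j (Lb (word l)) = hr l n := by
  induction l generalizing n with
  | nil =>
    rw [word_nil, Lb_nil, hr_nil, sum_eq_single 0]
    · simp
    · intro j _ hj
      rw [PowerSeries.coeff_one, if_neg hj]
    · intro h
      exact absurd (mem_range.2 hn) h
  | cons s l ih =>
    have hs := hl s List.mem_cons_self
    have ih' := ih fun s' hs' => hl s' (List.mem_cons_of_mem _ hs')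
    rw [hr_cons, range_eq_Ico, sum_eq_sum_Ico_succ_bot hn]
    have h0 : PowerSeries.coeff 0 (Lb (word (s :: l))) = 0 := by
      refine coeff_zero_Lb ?_
      rw [word_cons]
      simp
    rw [h0, zero_add]
    refine sum_congr rfl fun j hj => ?_
    rw [mem_Ico] at hj
    rw [word_cons, coeff_rep, ih' j hj.1, Nat.sub_add_cancel hs]

lemma coeff_word (s : ℕ) (l : List ℕ) (hs : 1 ≤ s) (hl : ∀ s ∈ l, 1 ≤ s) (n : ℕ) :
    PowerSeries.coeff n (Lb (word (s :: l))) = hr l n / (n : ℝ) ^ s := by
  rw [word_cons, coeff_rep, Nat.sub_add_cancel hs]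
  rcases Nat.eq_zero_or_pos n with rfl | hn
  · rw [Nat.cast_zero, zero_pow (by omega), div_zero, div_zero]
  · rw [sum_word l hl n hn]

lemma mz_eq (l : List ℕ) (hl : ∀ s ∈ l, 1 ≤ s) : mz l = Zb (word l) := by
  cases l with
  | nil =>
    rw [mz, Zb, word_nil, Lb_nil]
    simp only [PowerSeries.coeff_one]
    rw [tsum_ite_eq]
  | cons s l =>
    have hs := hl s List.mem_cons_self
    have hl' : ∀ s ∈ l, 1 ≤ s := fun s' hs' => hl s' (List.mem_cons_of_mem _ hs')
    rw [mz, Zb]
    have hinj : Function.Injective fun k : ℕ => k + 1 := fun a b h => Nat.succ_injective h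
    have h1 : ∀ k : ℕ, hr l (k + 1) / ((k + 1 : ℕ) : ℝ) ^ s =
        PowerSeries.coeff (k + 1) (Lb (word (s :: l))) := fun k =>
      (coeff_word s l hs hl' (k + 1)).symm
    rw [tsum_congr h1]
    refine hinj.tsum_eq (f := fun n => PowerSeries.coeff n (Lb (word (s :: l)))) ?_
    intro n hn
    rw [Function.mem_support, coeff_word s l hs hl'] at hn
    rcases Nat.eq_zero_or_pos n with rfl | hn0
    · exfalso
      apply hn
      rw [Nat.cast_zero, zero_pow (by omega), div_zero]
    · exact ⟨n - 1, by simp only; omega⟩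

lemma Zb_eq (w : List Bool) (hw : Vd w) : Zb w = mz (decA 0 w) := by
  rw [mz_eq _ (decA_pos w 0), word_decA w 0 hw (Or.inr rfl)]
  rfl

/-- convergent indices of a simple kind -/
def Good (l : List ℕ) : Prop := (∀ s ∈ l, 1 ≤ s) ∧ ∀ s l', l = s :: l' → l'.length + 2 ≤ s

lemma summable_good {l : List ℕ} (h : Good l) :
    Summable fun n => PowerSeries.coeff n (Lb (word l)) := by
  cases l with
  | nil =>
    rw [word_nil, Lb_nil]
    refine summable_of_ne_finset_zero (s := {0}) fun n hn => ?_
    rw [PowerSeries.coeff_one, if_neg (by simpa using hn)]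
  | cons s l =>
    have hs := h.1 s List.mem_cons_self
    have hl' : ∀ s ∈ l, 1 ≤ s := fun s' hs' => h.1 s' (List.mem_cons_of_mem _ hs')
    refine (summable_nat_add_iff 1).1 ?_
    have h1 : ∀ k : ℕ, hr l (k + 1) / ((k + 1 : ℕ) : ℝ) ^ s =
        PowerSeries.coeff (k + 1) (Lb (word (s :: l))) := fun k =>
      (coeff_word s l hs hl' (k + 1)).symm
    refine Summable.congr ?_ h1
    have hnn : ∀ k : ℕ, 0 ≤ hr l (k + 1) / ((k + 1 : ℕ) : ℝ) ^ s := fun k =>
      div_nonneg (hr_nonneg _ _) (by positivity)
    refine summable_of_sum_range_le (c := Z2) hnn fun m => ?_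
    rw [hr_range]
    exact hr_bd _ _ (h.2 s l rfl) _

/-- **the shuffle product of multiple zeta values** -/
theorem mz_shuffle {k l : List ℕ} (hk : Good k) (hl : Good l) :
    mz k * mz l = ((sh (word k) (word l)).map fun w => mz (decA 0 w)).sum := by
  rw [mz_eq k hk.1, mz_eq l hl.1, Zb_mul (Vd_word k) (Vd_word l) (summable_good hk)
    (summable_good hl)]
  congr 1
  refine List.map_congr_left fun w hw => ?_
  exact Zb_eq w (sh_Vd _ _ (Vd_word k) (Vd_word l) w hw)

end Pool.Agent.TH507.DS
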