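import Mathlib
import Pool.Agent.TH507.DS.B

/-!
# Relations of exponential height are double shuffle relations
-/

set_option autoImplicit false

namespace Pool.Agent.TH507.DS

open Finset Filter Topology
open Pool.Agent.TH507.WD (mz)
open Pool.Agent.TH507.WG (HP OK ar ar_nil ar_cons ar_length st st_length st_OK st_HP mz_mul ind_main)

/-- integer combinations of binary words -/
abbrev H : Type := List Bool →₀ ℤ

/-- the value -/
noncomputable def Zh : H →ₗ[ℤ] ℝ := Finsupp.linearCombination ℤ fun w => mz (decA 0 w)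

/-- the sum of a list of words -/
noncomputable def el (L : List (List Bool)) : H := (L.map fun w => Finsupp.single w 1).sum

lemma Zh_single (w : List Bool) (a : ℤ) : Zh (Finsupp.single w a) = a * mz (decA 0 w) := by
  rw [Zh, Finsupp.linearCombination_single, zsmul_eq_mul]

lemma Zh_el (L : List (List Bool)) : Zh (el L) = (L.map fun w => mz (decA 0 w)).sum := by
  induction L with
  | nil => simp [el]
  | cons w L ih =>
    have h1 : el (w :: L) = Finsupp.single w 1 + el L := by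
      rw [el, el, List.map_cons, List.sum_cons]
    rw [h1, map_add, ih, Zh_single, List.map_cons, List.sum_cons, Int.cast_one, one_mul]

/-- the stuffle product of indices -/
def stI : List ℕ → List ℕ → List (List ℕ)
  | [], l => [l]
  | i :: k, [] => [i :: k]
  | i :: k, j :: l => (stI k (j :: l)).map (i :: ·) ++ (stI (i :: k) l).map (j :: ·) ++
      (stI k l).map ((i + j) :: ·)
termination_by k l => k.length + l.length

lemma stI_ar (n : ℕ) (u v : List (ℕ × ℕ)) : stI (ar n u) (ar n v) = (st u v).map (ar n) := by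
  induction u, v using st.induct with
  | case1 v =>
    rw [ar_nil, stI, st]
    rfl
  | case2 x u =>
    rw [ar_nil, ar_cons, stI, st]
    rfl
  | case3 x u y v ih1 ih2 ih3 =>
    rw [ar_cons, ar_cons, stI, st]
    rw [ar_cons] at ih1 ih2
    rw [ih1, ih2, ih3]
    have h1 : (x + y).1 * n + (x + y).2 = x.1 * n + x.2 + (y.1 * n + y.2) := by
      rw [Prod.fst_add, Prod.snd_add]
      ring
    have h2 : ((fun t => (x.1 * n + x.2 + (y.1 * n + y.2)) :: t) ∘ ar n) =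
        (ar n ∘ fun t => (x + y) :: t) := by
      funext w
      simp only [Function.comp]
      rw [ar_cons, h1]
    simp only [List.map_append, List.map_map]
    rw [h2]
    rfl

lemma st_ne (u v : List (ℕ × ℕ)) (hu : u ≠ []) : [] ∉ st u v := by
  intro h
  cases u with
  | nil => exact hu rfl
  | cons x u =>
    cases v with
    | nil =>
      rw [st, List.mem_singleton] at h
      exact List.cons_ne_nil _ _ h.symm
    | cons y v =>
      rw [st, List.mem_append, List.mem_append, List.mem_map, List.mem_map, List.mem_map] at h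
      rcases h with (⟨w', -, h⟩ | ⟨w', -, h⟩) | ⟨w', -, h⟩ <;> exact List.cons_ne_nil _ _ h

lemma list_count' {M : Type*} [AddCommGroup M] (L : List (List (ℕ × ℕ))) (F : List (ℕ × ℕ) → M)
    (s : Finset (List (ℕ × ℕ))) (hs : ∀ w ∈ L, w ∈ s) :
    (L.map F).sum = ∑ w ∈ s, ((L.countP (· = w) : ℕ) : ℤ) • F w := by
  induction L with
  | nil => simp
  | cons a L ih =>
    rw [List.map_cons, List.sum_cons, ih fun w hw => hs w (List.mem_cons_of_mem _ hw)]
    have h1 : ∀ w, (((a :: L).countP (· = w) : ℕ) : ℤ) • F w =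
        ((L.countP (· = w) : ℕ) : ℤ) • F w + if a = w then F w else 0 := by
      intro w
      rw [List.countP_cons]
      by_cases h : a = w
      · simp only [h, decide_true, if_true]
        push_cast
        rw [add_smul, one_smul]
      · simp only [h, decide_false, if_false, Bool.false_eq_true]
        rw [add_zero, add_zero]
    simp only [h1]
    rw [sum_add_distrib, sum_ite_eq, if_pos (hs a List.mem_cons_self), add_comm]

/-- the coefficient of a word -/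
def Co (Λ : Finset (List (ℕ × ℕ))) (P : Finset (List (ℕ × ℕ) × List (ℕ × ℕ)))
    (c : List (ℕ × ℕ) → ℤ) (d : List (ℕ × ℕ) × List (ℕ × ℕ) → ℤ) (w : List (ℕ × ℕ)) : ℤ :=
  (if w ∈ Λ then c w else 0) + ∑ p ∈ P, d p * ((st p.1 p.2).countP (· = w) : ℤ)

/-- all words that occur -/
def La (Λ : Finset (List (ℕ × ℕ))) (P : Finset (List (ℕ × ℕ) × List (ℕ × ℕ))) :
    Finset (List (ℕ × ℕ)) := Λ ∪ P.biUnion fun p => (st p.1 p.2).toFinset

lemma expandG {M : Type*} [AddCommGroup M] (Λ : Finset (List (ℕ × ℕ)))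
    (P : Finset (List (ℕ × ℕ) × List (ℕ × ℕ))) (c : List (ℕ × ℕ) → ℤ)
    (d : List (ℕ × ℕ) × List (ℕ × ℕ) → ℤ) (G : List (ℕ × ℕ) → M) :
    ∑ w ∈ Λ, c w • G w + ∑ p ∈ P, d p • ((st p.1 p.2).map G).sum =
      ∑ w ∈ La Λ P, Co Λ P c d w • G w := by
  simp only [Co, add_smul, sum_add_distrib]
  congr 1
  · simp only [ite_smul, zero_smul]
    rw [sum_ite_mem, La, union_inter_cancel_left]
  · have h1 : ∀ p ∈ P, d p • ((st p.1 p.2).map G).sum =
        ∑ w ∈ La Λ P, (d p * ((st p.1 p.2).countP (· = w) : ℤ)) • G w := by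
      intro p hp
      rw [list_count' (st p.1 p.2) G (La Λ P) (fun w hw =>
        mem_union_right _ (mem_biUnion.2 ⟨p, hp, List.mem_toFinset.2 hw⟩)), smul_sum]
      exact sum_congr rfl fun w _ => by rw [smul_smul]
    rw [sum_congr rfl h1, sum_comm]
    exact sum_congr rfl fun w _ => (sum_smul).symm

/-- the element `∑ c_w w(n) + ∑ d_p (p_1(n) sh p_2(n))` -/
noncomputable def elt (Λ : Finset (List (ℕ × ℕ))) (P : Finset (List (ℕ × ℕ) × List (ℕ × ℕ)))
    (n : ℕ) (a : ℤ) (c : List (ℕ × ℕ) → ℤ) (d : List (ℕ × ℕ) × List (ℕ × ℕ) → ℤ) : H :=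
  a • Finsupp.single [] 1 + ∑ w ∈ Λ, c w • Finsupp.single (word (ar n w)) 1 +
    ∑ p ∈ P, d p • el (sh (word (ar n p.1)) (word (ar n p.2)))

/-- the double shuffle element -/
noncomputable def ds (k l : List ℕ) : H := el (sh (word k) (word l)) - el ((stI k l).map word)

lemma el_st (n : ℕ) (u v : List (ℕ × ℕ)) : el ((stI (ar n u) (ar n v)).map word) =
    ((st u v).map fun w => (Finsupp.single (word (ar n w)) 1 : H)).sum := by
  rw [el, stI_ar, List.map_map, List.map_map]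
  rfl

lemma elt_sub (Λ : Finset (List (ℕ × ℕ))) (P : Finset (List (ℕ × ℕ) × List (ℕ × ℕ)))
    (n : ℕ) (a : ℤ) (c : List (ℕ × ℕ) → ℤ) (d : List (ℕ × ℕ) × List (ℕ × ℕ) → ℤ) :
    elt Λ P n a c d = ∑ p ∈ P, d p • ds (ar n p.1) (ar n p.2) + (a • Finsupp.single [] 1 +
      ∑ w ∈ La Λ P, Co Λ P c d w • (Finsupp.single (word (ar n w)) 1 : H)) := by
  rw [← expandG, elt]
  simp only [ds, smul_sub, sum_sub_distrib, el_st]
  abel

lemma ar_pos {n : ℕ} (hn : 1 ≤ n) {w : List (ℕ × ℕ)} (hw : OK w) : ∀ s ∈ ar n w, 1 ≤ s := by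
  intro s hs
  rw [ar, List.mem_map] at hs
  obtain ⟨x, hx, rfl⟩ := hs
  have h1 := hw x hx
  rcases Nat.eq_zero_or_pos x.1 with h | h
  · have := h1 h
    omega
  · have h2 : 1 * n ≤ x.1 * n := Nat.mul_le_mul_right _ h
    omega

lemma good_ar {n : ℕ} {w : List (ℕ × ℕ)} (hHP : HP w) (hOK : OK w) (hn : w.length + 1 ≤ n) :
    Good (ar n w) := by
  refine ⟨ar_pos (by omega) hOK, fun s l' h => ?_⟩
  cases w with
  | nil =>
    rw [ar_nil] at h
    exact absurd h.symm (List.cons_ne_nil _ _)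
  | cons x w =>
    rw [ar_cons, List.cons_eq_cons] at h
    rw [← h.1, ← h.2, ar_length]
    rw [List.length_cons] at hn
    have h1 : 1 * n ≤ x.1 * n := Nat.mul_le_mul_right _ hHP
    omega

lemma mz_word {n : ℕ} (hn : 1 ≤ n) {w : List (ℕ × ℕ)} (hw : OK w) :
    mz (decA 0 (word (ar n w))) = mz (ar n w) := by
  rw [← Zb_eq _ (Vd_word _), mz_eq _ (ar_pos hn hw)]

lemma Zh_elt {Λ : Finset (List (ℕ × ℕ))} {P : Finset (List (ℕ × ℕ) × List (ℕ × ℕ))}
    (hΛ : ∀ w ∈ Λ, HP w ∧ OK w) (hP : ∀ p ∈ P, (HP p.1 ∧ OK p.1) ∧ (HP p.2 ∧ OK p.2))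
    {n : ℕ} (hn : 1 ≤ n) (hPn : ∀ p ∈ P, p.1.length + p.2.length + 1 ≤ n)
    (a : ℤ) (c : List (ℕ × ℕ) → ℤ) (d : List (ℕ × ℕ) × List (ℕ × ℕ) → ℤ) :
    Zh (elt Λ P n a c d) = a + ∑ w ∈ La Λ P, (Co Λ P c d w : ℝ) * mz (ar n w) := by
  have h0 := expandG Λ P c d (fun w => mz (ar n w))
  simp only [zsmul_eq_mul] at h0
  rw [← h0, elt, map_add, map_add, map_sum, map_sum, map_zsmul, Zh_single]
  have e1 : mz (decA 0 []) = 1 := by rw [decA, mz]
  rw [e1, Int.cast_one, mul_one, zsmul_eq_mul, mul_one, add_assoc]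
  congr 1
  congr 1
  · refine sum_congr rfl fun w hw => ?_
    rw [map_zsmul, Zh_single, mz_word hn (hΛ w hw).2, Int.cast_one, one_mul, zsmul_eq_mul]
  · refine sum_congr rfl fun p hp => ?_
    have h1 := hP p hp
    have h2 := hPn p hp
    rw [map_zsmul, Zh_el, zsmul_eq_mul, ← mz_shuffle (good_ar h1.1.1 h1.1.2 (by omega))
      (good_ar h1.2.1 h1.2.2 (by omega)), mz_mul p.1 p.2 h1.1.1 h1.2.1 h2]

theorem ds_main (Λ : Finset (List (ℕ × ℕ))) (P : Finset (List (ℕ × ℕ) × List (ℕ × ℕ)))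
    (hΛ : ∀ w ∈ Λ, w ≠ [] ∧ HP w ∧ OK w)
    (hP : ∀ p ∈ P, (p.1 ≠ [] ∧ HP p.1 ∧ OK p.1) ∧ (p.2 ≠ [] ∧ HP p.2 ∧ OK p.2)) (C : ℝ) :
    ∃ B : ℝ, 1 < B ∧ ∃ n0 : ℕ, ∀ n : ℕ, n0 ≤ n → ∀ (a : ℤ) (c : List (ℕ × ℕ) → ℤ)
      (d : List (ℕ × ℕ) × List (ℕ × ℕ) → ℤ), (∀ w ∈ Λ, |(c w : ℝ)| ≤ C ^ n) →
      (∀ p ∈ P, |(d p : ℝ)| ≤ C ^ n) →
      (elt Λ P n a c d = ∑ p ∈ P, d p • ds (ar n p.1) (ar n p.2) ∧ Zh (elt Λ P n a c d) = 0) ∨
        (B ^ n)⁻¹ < |Zh (elt Λ P n a c d)| := by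
  set D : ℝ := 1 + ∑ p ∈ P, ((st p.1 p.2).length : ℝ) with hD
  have hD1 : 1 ≤ D := by
    have : 0 ≤ ∑ p ∈ P, ((st p.1 p.2).length : ℝ) := sum_nonneg fun _ _ => Nat.cast_nonneg _
    linarith
  have hLa : ∀ w ∈ La Λ P, w ≠ [] ∧ HP w ∧ OK w := by
    intro w hw
    rw [La] at hw
    rcases mem_union.1 hw with hw | hw
    · exact hΛ w hw
    · obtain ⟨p, hp, hw⟩ := mem_biUnion.1 hw
      have hw' := List.mem_toFinset.1 hw
      have h1 := hP p hp
      exact ⟨fun h => st_ne p.1 p.2 h1.1.1 (h ▸ hw'), st_HP p.1 p.2 h1.1.2.1 h1.2.2.1 w hw',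
        st_OK p.1 p.2 h1.1.2.2 h1.2.2.2 w hw'⟩
  obtain ⟨B, hB, n0, hmain⟩ := ind_main (La Λ P) (fun h => (hLa [] h).1 rfl)
    (fun w hw => (hLa w hw).2.1) (fun w hw => (hLa w hw).2.2) (D * |C|)
  refine ⟨B, hB, n0 + 1 + ∑ p ∈ P, (p.1.length + p.2.length + 1), fun n hn a c d hc hd => ?_⟩
  have hPn : ∀ p ∈ P, p.1.length + p.2.length + 1 ≤ n := fun p hp => by
    have := single_le_sum (f := fun p : List (ℕ × ℕ) × List (ℕ × ℕ) =>
      p.1.length + p.2.length + 1) (fun _ _ => Nat.zero_le _) hp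
    omega
  have hZ := Zh_elt (fun w hw => (hΛ w hw).2) (fun p hp => ⟨(hP p hp).1.2, (hP p hp).2.2⟩)
    (by omega : 1 ≤ n) hPn a c d
  have hCn : ∀ z : ℝ, |z| ≤ C ^ n → |z| ≤ |C| ^ n := fun z hz =>
    hz.trans ((le_abs_self _).trans (abs_pow _ _).le)
  have hbound : ∀ w ∈ La Λ P, |(Co Λ P c d w : ℝ)| ≤ (D * |C|) ^ n := by
    intro w _
    have h1 : |(((if w ∈ Λ then c w else 0 : ℤ)) : ℝ)| ≤ |C| ^ n := by
      split_ifs with hw
      · exact hCn _ (hc w hw)
      · rw [Int.cast_zero, abs_zero]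
        positivity
    have h2 : |((∑ p ∈ P, d p * ((st p.1 p.2).countP (· = w) : ℤ) : ℤ) : ℝ)| ≤
        |C| ^ n * ∑ p ∈ P, ((st p.1 p.2).length : ℝ) := by
      push_cast
      rw [mul_sum]
      refine (abs_sum_le_sum_abs _ _).trans (sum_le_sum fun p hp => ?_)
      rw [abs_mul, Nat.abs_cast]
      refine mul_le_mul (hCn _ (hd p hp)) ?_ (Nat.cast_nonneg _) (by positivity)
      exact_mod_cast List.countP_le_length
    rw [Co, Int.cast_add]
    calc |(((if w ∈ Λ then c w else 0 : ℤ)) : ℝ) +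
        ((∑ p ∈ P, d p * ((st p.1 p.2).countP (· = w) : ℤ) : ℤ) : ℝ)| ≤
        |C| ^ n + |C| ^ n * ∑ p ∈ P, ((st p.1 p.2).length : ℝ) :=
          (abs_add_le _ _).trans (add_le_add h1 h2)
      _ = D * |C| ^ n := by rw [hD]; ring
      _ ≤ D ^ n * |C| ^ n := by
        refine mul_le_mul_of_nonneg_right ?_ (by positivity)
        exact le_self_pow₀ hD1 (by omega)
      _ = (D * |C|) ^ n := (mul_pow _ _ _).symm
  by_cases hz : a ≠ 0 ∨ ∃ w ∈ La Λ P, Co Λ P c d w ≠ 0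
  · right
    rw [hZ]
    exact hmain n (by omega) a (Co Λ P c d) hbound hz
  · left
    push Not at hz
    obtain ⟨ha, hco⟩ := hz
    constructor
    · have hz0 : ∑ w ∈ La Λ P, Co Λ P c d w • (Finsupp.single (word (ar n w)) 1 : H) = 0 :=
        sum_eq_zero fun w hw => by rw [hco w hw, zero_smul]
      rw [elt_sub, ha, zero_smul, zero_add, hz0, add_zero]
    · rw [hZ, ha, Int.cast_zero, zero_add]
      exact sum_eq_zero fun w hw => by rw [hco w hw, Int.cast_zero, zero_mul]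

end Pool.Agent.TH507.DS
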