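import Mathlib
import Pool.Agent.TH507.DS.C

/-!
# Relations of exponential height are homogeneous for the weight
-/

set_option autoImplicit false

namespace Pool.Agent.TH507.DS

open Finset Filter Topology
open Pool.Agent.TH507.WD (mz)
open Pool.Agent.TH507.WG (HP OK ar ar_nil ar_cons ar_length st st_length st_OK st_HP mz_mul
  ind_main stl stl_ok mz_prod)

/-- the weight of a word -/
def wt (m : ℕ) (w : List (ℕ × ℕ)) : ℕ := (ar m w).sum

lemma wt_nil (m : ℕ) : wt m [] = 0 := rfl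
lemma wt_cons (m : ℕ) (x : ℕ × ℕ) (l : List (ℕ × ℕ)) :
    wt m (x :: l) = (x.1 * m + x.2) + wt m l := by
  rw [wt, wt, ar_cons, List.sum_cons]

lemma st_wt (m : ℕ) (u v : List (ℕ × ℕ)) : ∀ w ∈ st u v, wt m w = wt m u + wt m v := by
  induction u, v using st.induct with
  | case1 v =>
    intro w hw
    rw [st, List.mem_singleton] at hw
    rw [hw, wt_nil, zero_add]
  | case2 x u =>
    intro w hw
    rw [st, List.mem_singleton] at hw
    rw [hw, wt_nil, add_zero]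
  | case3 x u y v ih1 ih2 ih3 =>
    intro w hw
    rw [st, List.mem_append, List.mem_append, List.mem_map, List.mem_map, List.mem_map] at hw
    rcases hw with (⟨w', hw', rfl⟩ | ⟨w', hw', rfl⟩) | ⟨w', hw', rfl⟩
    · have := ih1 w' hw'
      simp only [wt_cons] at this ⊢
      omega
    · have := ih2 w' hw'
      simp only [wt_cons] at this ⊢
      omega
    · have := ih3 w' hw'
      simp only [wt_cons] at this ⊢
      have h1 : (x + y).1 * m + (x + y).2 = x.1 * m + x.2 + (y.1 * m + y.2) := by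
        rw [Prod.fst_add, Prod.snd_add]
        ring
      omega

/-- the weight of a product -/
def wtM (m : ℕ) (M : List (List (ℕ × ℕ))) : ℕ := (M.map (wt m)).sum

lemma stl_wt (m : ℕ) (M : List (List (ℕ × ℕ))) : ∀ w ∈ stl M, wt m w = wtM m M := by
  induction M with
  | nil =>
    intro w hw
    rw [stl, List.mem_singleton] at hw
    rw [hw]
    rfl
  | cons u M ih =>
    intro w hw
    rw [stl, List.mem_flatMap] at hw
    obtain ⟨v, hv, hw⟩ := hw
    rw [st_wt m u v w hw, ih v hv, wtM, wtM, List.map_cons, List.sum_cons]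

lemma stl_ne (M : List (List (ℕ × ℕ))) (hM : M ≠ []) (hM' : ∀ u ∈ M, u ≠ []) : [] ∉ stl M := by
  intro h
  cases M with
  | nil => exact hM rfl
  | cons u M =>
    rw [stl, List.mem_flatMap] at h
    obtain ⟨v, -, hw⟩ := h
    exact st_ne u v (hM' u List.mem_cons_self) hw

/-- the coefficient of a word in the expansion -/
def coM (𝓜 : Finset (List (List (ℕ × ℕ)))) (c : List (List (ℕ × ℕ)) → ℤ)
    (w : List (ℕ × ℕ)) : ℤ := ∑ M ∈ 𝓜, c M * ((stl M).countP (· = w) : ℤ)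

lemma expandM {n : ℕ} (𝓜 : Finset (List (List (ℕ × ℕ))))
    (hM : ∀ M ∈ 𝓜, ∀ u ∈ M, HP u ∧ OK u) (hn : ∀ M ∈ 𝓜, (M.map List.length).sum + 1 ≤ n)
    (c : List (List (ℕ × ℕ)) → ℤ) (s : Finset (List (ℕ × ℕ)))
    (hs : ∀ M ∈ 𝓜, ∀ w ∈ stl M, w ∈ s) :
    ∑ M ∈ 𝓜, (c M : ℝ) * (M.map fun u => mz (ar n u)).prod =
      ∑ w ∈ s, (coM 𝓜 c w : ℝ) * mz (ar n w) := by
  have h1 : ∀ M ∈ 𝓜, (c M : ℝ) * (M.map fun u => mz (ar n u)).prod =
      ∑ w ∈ s, (c M : ℝ) * ((stl M).countP (· = w) : ℝ) * mz (ar n w) := by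
    intro M hM'
    rw [mz_prod M (hM M hM') (hn M hM'),
      list_count' (stl M) (fun w => mz (ar n w)) s (hs M hM'), mul_sum]
    refine sum_congr rfl fun w _ => ?_
    rw [zsmul_eq_mul, Int.cast_natCast, mul_assoc]
  rw [sum_congr rfl h1, sum_comm]
  refine sum_congr rfl fun w _ => ?_
  rw [← sum_mul, coM]
  push_cast
  rfl

theorem dir_main (𝓜 : Finset (List (List (ℕ × ℕ))))
    (hM : ∀ M ∈ 𝓜, M ≠ [] ∧ ∀ u ∈ M, u ≠ [] ∧ HP u ∧ OK u) (C : ℝ) :
    ∃ B : ℝ, 1 < B ∧ ∃ n0 : ℕ, ∀ n : ℕ, n0 ≤ n → ∀ (a : ℤ) (c : List (List (ℕ × ℕ)) → ℤ),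
      (∀ M ∈ 𝓜, |(c M : ℝ)| ≤ C ^ n) →
      |(a : ℝ) + ∑ M ∈ 𝓜, (c M : ℝ) * (M.map fun u => mz (ar n u)).prod| ≤ (B ^ n)⁻¹ →
      a = 0 ∧ ∀ m : ℕ, n0 ≤ m → ∀ p : ℕ,
        ∑ M ∈ 𝓜 with wtM m M = p, (c M : ℝ) * (M.map fun u => mz (ar m u)).prod = 0 := by
  set Λ : Finset (List (ℕ × ℕ)) := 𝓜.biUnion fun M => (stl M).toFinset with hΛ
  have hMok : ∀ M ∈ 𝓜, ∀ u ∈ M, HP u ∧ OK u := fun M h u hu => ((hM M h).2 u hu).2
  have hmem : ∀ M ∈ 𝓜, ∀ w ∈ stl M, w ∈ Λ := fun M hM' w hw =>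
    mem_biUnion.2 ⟨M, hM', List.mem_toFinset.2 hw⟩
  have hLa : ∀ w ∈ Λ, w ≠ [] ∧ HP w ∧ OK w := by
    intro w hw
    obtain ⟨M, hM', hw⟩ := mem_biUnion.1 hw
    have hw' := List.mem_toFinset.1 hw
    have h1 := stl_ok M (hMok M hM') w hw'
    exact ⟨fun h => stl_ne M (hM M hM').1 (fun u hu => ((hM M hM').2 u hu).1) (h ▸ hw'), h1.1,
      h1.2.1⟩
  set D : ℝ := ∑ M ∈ 𝓜, ((stl M).length : ℝ) with hD
  have hD0 : 0 ≤ D := sum_nonneg fun _ _ => Nat.cast_nonneg _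
  obtain ⟨B, hB, n0, hmain⟩ := ind_main Λ (fun h => (hLa [] h).1 rfl)
    (fun w hw => (hLa w hw).2.1) (fun w hw => (hLa w hw).2.2) ((D + 1) * |C|)
  refine ⟨B, hB, n0 + 1 + ∑ M ∈ 𝓜, ((M.map List.length).sum + 1), fun n hn a c hc hv => ?_⟩
  have hlen : ∀ m, n0 + 1 + ∑ M ∈ 𝓜, ((M.map List.length).sum + 1) ≤ m → ∀ M ∈ 𝓜,
      (M.map List.length).sum + 1 ≤ m := fun m hm M hM' => by
    have := single_le_sum (f := fun M : List (List (ℕ × ℕ)) => (M.map List.length).sum + 1)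
      (fun _ _ => Nat.zero_le _) hM'
    omega
  have hbound : ∀ w ∈ Λ, |(coM 𝓜 c w : ℝ)| ≤ ((D + 1) * |C|) ^ n := by
    intro w _
    rw [coM]
    push_cast
    calc |∑ M ∈ 𝓜, (c M : ℝ) * ((stl M).countP (· = w) : ℝ)| ≤
        ∑ M ∈ 𝓜, |(c M : ℝ) * ((stl M).countP (· = w) : ℝ)| := abs_sum_le_sum_abs _ _
      _ ≤ ∑ M ∈ 𝓜, |C| ^ n * ((stl M).length : ℝ) := by
        refine sum_le_sum fun M hM' => ?_
        rw [abs_mul, Nat.abs_cast]
        refine mul_le_mul ((hc M hM').trans ((le_abs_self _).trans (abs_pow _ _).le)) ?_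
          (Nat.cast_nonneg _) (by positivity)
        exact_mod_cast List.countP_le_length
      _ = |C| ^ n * D := by rw [hD, mul_sum]
      _ ≤ |C| ^ n * (D + 1) ^ n := by
        refine mul_le_mul_of_nonneg_left ?_ (by positivity)
        calc D ≤ D + 1 := by linarith
          _ ≤ (D + 1) ^ n := le_self_pow₀ (by linarith) (by omega)
      _ = ((D + 1) * |C|) ^ n := by rw [mul_pow, mul_comm]
  have hz : a = 0 ∧ ∀ w ∈ Λ, coM 𝓜 c w = 0 := by
    by_contra hz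
    have hz' : a ≠ 0 ∨ ∃ w ∈ Λ, coM 𝓜 c w ≠ 0 := by
      by_contra h
      push Not at h
      exact hz h
    have h1 := hmain n (by omega) a (coM 𝓜 c) hbound hz'
    rw [← expandM 𝓜 hMok (hlen n hn) c Λ hmem] at h1
    exact absurd hv (not_le.2 h1)
  refine ⟨hz.1, fun m hm p => ?_⟩
  rw [expandM (𝓜.filter fun M => wtM m M = p) (fun M h => hMok M (mem_filter.1 h).1)
    (fun M h => hlen m hm M (mem_filter.1 h).1) c Λ (fun M h => hmem M (mem_filter.1 h).1)]
  refine sum_eq_zero fun w hw => ?_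
  have h1 : coM (𝓜.filter fun M => wtM m M = p) c w = 0 := by
    by_cases hwp : wt m w = p
    · rw [← hz.2 w hw, coM, coM, sum_filter]
      refine sum_congr rfl fun M hM' => ?_
      split_ifs with h
      · rfl
      · symm
        have h2 : (stl M).countP (· = w) = 0 := by
          rw [List.countP_eq_zero]
          intro v hv' hvw
          rw [decide_eq_true_eq] at hvw
          subst hvw
          exact h ((stl_wt m M v hv').symm.trans hwp)
        rw [h2, Nat.cast_zero, mul_zero]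
    · rw [coM]
      refine sum_eq_zero fun M hM' => ?_
      have h2 : (stl M).countP (· = w) = 0 := by
        rw [List.countP_eq_zero]
        intro v hv' hvw
        rw [decide_eq_true_eq] at hvw
        subst hvw
        exact hwp ((stl_wt m M v hv').trans (mem_filter.1 hM').2)
      rw [h2, Nat.cast_zero, mul_zero]
  rw [h1, Int.cast_zero, zero_mul]

end Pool.Agent.TH507.DS
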